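import Pool.Agent.Q161.ESG.Stm6

/-!
Project ESG (helper161), job MQD: the finite list of the classes.
-/

set_option autoImplicit false

namespace Pool.Agent.Q121.ESG

open Pool.Agent.Q161.ESM Pool.Agent.Q161.ESG NumberField

/-- **MQD** -/
theorem mqd : S_MQD := by
  intro F M _ _ _ _ _ hG
  classical
  have hfd : FiniteDimensional F M := inferInstance
  -- the class of an element
  have key : ∀ (s s' : M) (c c' : F), s ≠ 0 → s' ≠ 0 → s ^ 2 = algebraMap F M c →
      s' ^ 2 = algebraMap F M c' → (∀ σ : M ≃ₐ[F] M, σ s = s ↔ σ s' = s') →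
      ∃ t : F, c = c' * t ^ 2 := by
    intro s s' c c' hs hs' hc hc' h
    have hfix : s / s' ∈ Set.range (algebraMap F M) := by
      rw [IsGalois.mem_range_algebraMap_iff_fixed]
      intro σ
      have h1 : (σ s) ^ 2 = s ^ 2 := by rw [← map_pow, hc, σ.commutes]
      have h2 : (σ s') ^ 2 = s' ^ 2 := by rw [← map_pow, hc', σ.commutes]
      rcases sq_eq_sq_iff_eq_or_eq_neg.1 h1 with h3 | h3
      · rw [map_div₀, h3, (h σ).1 h3]
      · rcases sq_eq_sq_iff_eq_or_eq_neg.1 h2 with h4 | h4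
        · rw [map_div₀, h4, (h σ).2 h4]
        · rw [map_div₀, h3, h4, neg_div_neg_eq]
    obtain ⟨t, ht⟩ := hfix
    refine ⟨t, ?_⟩
    apply (algebraMap F M).injective
    rw [map_mul, map_pow, ← hc, ← hc', ht]
    field_simp
  -- integral representatives
  have hint : ∀ c : F, c ≠ 0 → ∃ d : 𝓞 F, d ≠ 0 ∧ ∃ t : F, c = (d : F) * t ^ 2 := by
    intro c hc
    obtain ⟨a, b, hb, hab⟩ := IsFractionRing.div_surjective (A := 𝓞 F) c
    have hb' : (algebraMap (𝓞 F) F b) ≠ 0 := by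
      intro h
      rw [h, div_zero] at hab
      exact hc hab.symm
    refine ⟨a * b, ?_, (algebraMap (𝓞 F) F b)⁻¹, ?_⟩
    · intro h
      rcases mul_eq_zero.1 h with h | h
      · rw [h, map_zero, zero_div] at hab
        exact hc hab.symm
      · rw [h, map_zero] at hb'
        exact hb' rfl
    · rw [← hab]
      show _ = algebraMap (𝓞 F) F (a * b) * _
      rw [map_mul]
      field_simp
  -- a representative for every function
  have hrep : ∀ χ : (M ≃ₐ[F] M) → Prop, ∃ d : 𝓞 F, d ≠ 0 ∧ ∀ (s : M) (c : F), s ≠ 0 →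
      s ^ 2 = algebraMap F M c → (∀ σ, χ σ ↔ σ s = s) → ∃ t : F, c = (d : F) * t ^ 2 := by
    intro χ
    by_cases hχ : ∃ (s : M) (c : F), s ≠ 0 ∧ s ^ 2 = algebraMap F M c ∧ ∀ σ, χ σ ↔ σ s = s
    · obtain ⟨s0, c0, h0, h1, h2⟩ := hχ
      have hc0 : c0 ≠ 0 := by
        rintro rfl
        rw [map_zero] at h1
        exact h0 (pow_eq_zero_iff two_ne_zero |>.1 h1)
      obtain ⟨d, hd, t0, ht0⟩ := hint c0 hc0
      refine ⟨d, hd, ?_⟩
      intro s c hs hc h
      obtain ⟨t, ht⟩ := key s s0 c c0 hs h0 hc h1 (fun σ => (h σ).symm.trans (h2 σ))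
      refine ⟨t0 * t, ?_⟩
      rw [ht, ht0]
      ring
    · refine ⟨1, one_ne_zero, ?_⟩
      intro s c hs hc h
      exact absurd ⟨s, c, hs, hc, h⟩ hχ
  choose d hd hd' using hrep
  obtain ⟨m, ⟨e⟩⟩ := Finite.exists_equiv_fin ((M ≃ₐ[F] M) → Prop)
  refine ⟨m, fun i => d (e.symm i), fun i => hd _, ?_⟩
  intro s c hs hc
  obtain ⟨t, ht⟩ := hd' (fun σ => σ s = s) s c hs hc (fun σ => Iff.rfl)
  refine ⟨e (fun σ => σ s = s), t, ?_⟩
  show c = ((d (e.symm (e fun σ => σ s = s)) : 𝓞 F) : F) * t ^ 2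
  rw [e.symm_apply_apply]
  exact ht

end Pool.Agent.Q121.ESG
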