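import Pool.Agent.Q161.ESG.Stm6
import Pool.Agent.Q286.EQ.MW
import Pool.Agent.W612.RS.Mq1

/-!
Project ESG (helper161), job MQR: the rank over an elementary abelian extension.
-/

set_option autoImplicit false

namespace Pool.Agent.Q121.ESG

open Pool.Agent.Q161.ESM Pool.Agent.Q161.ESG Finset
open WeierstrassCurve
open Pool.Agent.W307.RS (ShK)

/-! ### involutions on modules -/

section mods

variable {P : Type} [AddCommGroup P]

theorem rank_fsup {ι : Type} (f : ι → Submodule ℤ P) (s : Finset ι) :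
    Module.rank ℤ (s.sup f : Submodule ℤ P) ≤ ∑ i ∈ s, Module.rank ℤ (f i) := by
  classical
  induction s using Finset.induction_on with
  | empty =>
    rw [Finset.sup_empty, Finset.sum_empty]
    simp
  | insert a s ha ih =>
    rw [Finset.sup_insert, Finset.sum_insert ha]
    exact (Submodule.rank_add_le_rank_add_rank _ _).trans (add_le_add le_rfl ih)

variable {G : Type} (V : G → P →+ P)

/-- common eigenspaces -/
def eig (S : Finset G) (χ : G → ℤˣ) : Submodule ℤ P where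
  carrier := {x | ∀ σ ∈ S, V σ x = (χ σ : ℤ) • x}
  zero_mem' := by
    intro σ _
    rw [map_zero, smul_zero]
  add_mem' := by
    intro x y hx hy σ hσ
    rw [map_add, hx σ hσ, hy σ hσ, smul_add]
  smul_mem' := by
    intro n x hx σ hσ
    rw [map_zsmul, hx σ hσ, smul_comm]

theorem eig_step (hV2 : ∀ σ x, V σ (V σ x) = x) (hcomm : ∀ σ τ x, V σ (V τ x) = V τ (V σ x))
    (S : Finset G) (x : P) : ((2 : ℤ) ^ S.card) • x ∈ ⨆ χ : G → ℤˣ, eig V S χ := by
  classical
  induction S using Finset.induction_on with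
  | empty =>
    refine (le_iSup (eig V ∅) (fun _ => 1)) ?_
    intro σ hσ
    simp at hσ
  | insert σ S hσ ih =>
    rw [Finset.card_insert_of_notMem hσ, pow_succ', mul_smul]
    have key : ∀ χ : G → ℤˣ, ∀ y ∈ eig V S χ, (2 : ℤ) • y ∈ ⨆ χ : G → ℤˣ, eig V (insert σ S) χ := by
      intro χ y hy
      have h1 : y + V σ y ∈ eig V (insert σ S) (Function.update χ σ 1) := by
        intro τ hτ
        by_cases hts : τ = σ
        · subst hts
          rw [Function.update_self, map_add, hV2, Units.val_one, one_smul, add_comm]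
        · rw [Function.update_of_ne hts, map_add, hcomm τ σ,
            hy τ ((Finset.mem_insert.1 hτ).resolve_left hts), map_zsmul, smul_add]
      have h2 : y - V σ y ∈ eig V (insert σ S) (Function.update χ σ (-1)) := by
        intro τ hτ
        by_cases hts : τ = σ
        · subst hts
          rw [Function.update_self, map_sub, hV2, Units.val_neg, Units.val_one, neg_smul, one_smul,
            neg_sub]
        · rw [Function.update_of_ne hts, map_sub, hcomm τ σ,
            hy τ ((Finset.mem_insert.1 hτ).resolve_left hts), map_zsmul, smul_sub]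
      have h3 : (2 : ℤ) • y = (y + V σ y) + (y - V σ y) := by
        rw [two_smul]
        abel
      rw [h3]
      exact Submodule.add_mem _ ((le_iSup (eig V (insert σ S)) _) h1)
        ((le_iSup (eig V (insert σ S)) _) h2)
    have h4 : (⨆ χ : G → ℤˣ, eig V S χ) ≤
        (⨆ χ : G → ℤˣ, eig V (insert σ S) χ).comap ((2 : ℤ) • LinearMap.id) := by
      rw [iSup_le_iff]
      intro χ y hy
      exact key χ y hy
    exact h4 ih

theorem rank_eig [Fintype G] [DecidableEq G] (hV2 : ∀ σ x, V σ (V σ x) = x)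
    (hcomm : ∀ σ τ x, V σ (V τ x) = V τ (V σ x)) :
    Module.rank ℤ P ≤ ∑ χ : G → ℤˣ, Module.rank ℤ (eig V univ χ) := by
  have h1 := HasRankNullity.rank_quotient_add_rank (R := ℤ) (⨆ χ : G → ℤˣ, eig V univ χ)
  have h2 : Module.rank ℤ (P ⧸ (⨆ χ : G → ℤˣ, eig V univ χ)) = 0 := by
    rw [rank_eq_zero_iff]
    intro x
    obtain ⟨y, rfl⟩ := Submodule.Quotient.mk_surjective _ x
    refine ⟨2 ^ (univ : Finset G).card, by positivity, ?_⟩
    rw [← Submodule.Quotient.mk_smul, Submodule.Quotient.mk_eq_zero]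
    exact eig_step V hV2 hcomm univ y
  rw [h2, zero_add] at h1
  rw [← h1, ← Finset.sup_univ_eq_iSup]
  exact rank_fsup _ _

theorem u3 : ∀ a b c : ℤˣ, a ≠ b * c → (a : ℤ) = - ((c : ℤ) * (b : ℤ)) := by
  decide

theorem rank_nochar [Fintype G] [Mul G] (hmul : ∀ σ τ x, V (σ * τ) x = V σ (V τ x)) (χ : G → ℤˣ)
    (hχ : ¬ ∀ σ τ, χ (σ * τ) = χ σ * χ τ) : Module.rank ℤ (eig V univ χ) = 0 := by
  rw [rank_eq_zero_iff]
  rintro ⟨x, hx⟩
  refine ⟨2, two_ne_zero, ?_⟩
  apply Subtype.ext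
  show (2 : ℤ) • x = 0
  push Not at hχ
  obtain ⟨σ, τ, h⟩ := hχ
  have h1 := hmul σ τ x
  rw [hx _ (Finset.mem_univ _), hx τ (Finset.mem_univ _), map_zsmul, hx σ (Finset.mem_univ _),
    smul_smul] at h1
  have h2 : (χ (σ * τ) : ℤ) = - ((χ τ : ℤ) * (χ σ : ℤ)) := u3 _ _ _ h
  rw [h2, neg_smul] at h1
  have h3 : ((χ τ : ℤ) * (χ σ : ℤ)) • ((2 : ℤ) • x) = 0 := by
    rw [smul_comm, two_smul]
    nth_rewrite 1 [← h1]
    simp
  have h4 : ((χ τ : ℤ) * (χ σ : ℤ)) * ((χ τ : ℤ) * (χ σ : ℤ)) = 1 := by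
    rcases Int.units_eq_one_or (χ σ) with h4 | h4 <;>
    rcases Int.units_eq_one_or (χ τ) with h5 | h5 <;>
    rw [h4, h5] <;> simp
  calc (2 : ℤ) • x = (((χ τ : ℤ) * (χ σ : ℤ)) * ((χ τ : ℤ) * (χ σ : ℤ))) • ((2 : ℤ) • x) := by
        rw [h4, one_smul]
    _ = 0 := by rw [mul_smul, h3, smul_zero]

end mods

/-! ### characters -/

section chars

variable {F M : Type} [Field F] [NumberField F] [Field M] [NumberField M] [Algebra F M]

theorem ex_s (χ : (M ≃ₐ[F] M) → ℤˣ) (hχ : ∀ σ τ, χ (σ * τ) = χ σ * χ τ) :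
    ∃ s : M, s ≠ 0 ∧ ∀ σ : M ≃ₐ[F] M, σ s = ((χ σ : ℤ) : M) * s := by
  have hfd : FiniteDimensional F M := inferInstance
  let f : (M ≃ₐ[F] M) → Mˣ := fun σ => Units.map (Int.castRingHom M : ℤ →* M) (χ σ)
  have hf : groupCohomology.IsMulCocycle₁ f := by
    intro σ τ
    apply Units.ext
    show (((χ (σ * τ) : ℤˣ) : ℤ) : M) = σ (((χ τ : ℤˣ) : ℤ) : M) * (((χ σ : ℤˣ) : ℤ) : M)
    rw [hχ, map_intCast]
    push_cast
    ring
  obtain ⟨β, hβ⟩ := groupCohomology.isMulCoboundary₁_of_isMulCocycle₁_of_aut_to_units f hf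
  refine ⟨β, β.ne_zero, fun σ => ?_⟩
  have h1 := hβ σ
  rw [div_eq_iff_eq_mul] at h1
  exact congrArg Units.val h1

theorem sq_fix [IsGalois F M] (χ : (M ≃ₐ[F] M) → ℤˣ) (s : M)
    (hs : ∀ σ : M ≃ₐ[F] M, σ s = ((χ σ : ℤ) : M) * s) : ∃ c : F, s ^ 2 = algebraMap F M c := by
  have h1 : s ^ 2 ∈ Set.range (algebraMap F M) := by
    rw [IsGalois.mem_range_algebraMap_iff_fixed]
    intro σ
    rw [map_pow, hs, mul_pow]
    have h2 : (((χ σ : ℤ) : M)) ^ 2 = 1 := by
      rcases Int.units_eq_one_or (χ σ) with h | h <;> rw [h] <;> simp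
    rw [h2, one_mul]
  obtain ⟨c, hc⟩ := h1
  exact ⟨c, hc.symm⟩

end chars

theorem disc_ne {F : Type} [Field F] [CharZero F] {A B : F} (h : 4 * A ^ 3 + 27 * B ^ 2 ≠ 0) :
    (ShK A B).Δ ≠ 0 := by
  have h1 : (ShK A B).Δ = -16 * (4 * A ^ 3 + 27 * B ^ 2) := by
    simp only [WeierstrassCurve.Δ, WeierstrassCurve.b₂, WeierstrassCurve.b₄, WeierstrassCurve.b₆,
      WeierstrassCurve.b₈, ShK]
    ring
  rw [h1]
  exact mul_ne_zero (by norm_num) h

open scoped Classical in
theorem fin_pt {F : Type} [Field F] [NumberField F] {A B : F} (h : 4 * A ^ 3 + 27 * B ^ 2 ≠ 0) :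
    Module.Finite ℤ (ShK A B).toAffine.Point :=
  Module.Finite.iff_addGroup_fg.2 (Pool.Agent.Q286.EQ.mordell_weil F (ShK A B) (disc_ne h))

open scoped Classical in
theorem mqr' : ∀ (F M : Type) [Field F] [NumberField F] [Field M] [NumberField M] [Algebra F M],
  IsGalois F M → (∀ σ : M ≃ₐ[F] M, σ * σ = 1) → ∀ (m : ℕ) (d : Fin m → F), (∀ i, d i ≠ 0) →
  (∀ (s : M) (c : F), s ≠ 0 → s ^ 2 = algebraMap F M c →
    ∃ (i : Fin m) (t : F), c = d i * t ^ 2) →
  ∀ A B : F, 4 * A ^ 3 + 27 * B ^ 2 ≠ 0 →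
    Module.finrank ℤ (ShK (algebraMap F M A) (algebraMap F M B)).toAffine.Point ≤
      ∑ i, Module.finrank ℤ (ShK (A * d i ^ 2) (B * d i ^ 3)).toAffine.Point := by
  intro F M _ _ _ _ _ hG hexp m d hd hcl A B hAB
  have hinj := (algebraMap F M).injective
  have hM : (4 : M) * (algebraMap F M A) ^ 3 + 27 * (algebraMap F M B) ^ 2 ≠ 0 := by
    intro h
    apply hAB
    apply hinj
    rw [map_zero, ← h]
    simp only [map_add, map_mul, map_pow, map_ofNat]
  have hf1 := fin_pt hM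
  have hf2 : ∀ i, Module.Finite ℤ (ShK (A * d i ^ 2) (B * d i ^ 3)).toAffine.Point := by
    intro i
    apply fin_pt
    have h1 : 4 * (A * d i ^ 2) ^ 3 + 27 * (B * d i ^ 3) ^ 2 =
        (4 * A ^ 3 + 27 * B ^ 2) * d i ^ 6 := by ring
    rw [h1]
    exact mul_ne_zero hAB (pow_ne_zero _ (hd i))
  -- the action
  have ha : ∀ σ : M ≃ₐ[F] M, algebraMap F M A = (σ : M →+* M) (algebraMap F M A) * (1 : M) ^ 4 := by
    intro σ
    rw [one_pow, mul_one]
    exact (σ.commutes A).symm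
  have hb : ∀ σ : M ≃ₐ[F] M, algebraMap F M B = (σ : M →+* M) (algebraMap F M B) * (1 : M) ^ 6 := by
    intro σ
    rw [one_pow, mul_one]
    exact (σ.commutes B).symm
  let V : (M ≃ₐ[F] M) → (ShK (algebraMap F M A) (algebraMap F M B)).toAffine.Point →+
      (ShK (algebraMap F M A) (algebraMap F M B)).toAffine.Point :=
    fun σ => Pool.Agent.W612.RS.tH (σ : M →+* M) one_ne_zero (ha σ) (hb σ)
  have hV : ∀ σ (x y : M) (h : (ShK (algebraMap F M A) (algebraMap F M B)).toAffine.Nonsingular x y),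
      ∃ h', V σ (.some x y h) = .some (σ x) (σ y) h' := by
    intro σ x y h
    have h1 := (Pool.Agent.W612.RS.ns_iff (σ : M →+* M) one_ne_zero (ha σ) (hb σ) x y).2 h
    have h2 : (ShK (algebraMap F M A) (algebraMap F M B)).toAffine.Nonsingular (σ x) (σ y) := by
      have h3 : (σ : M →+* M) x * (1 : M) ^ 2 = σ x := by simp
      have h4 : (σ : M →+* M) y * (1 : M) ^ 3 = σ y := by simp
      rw [h3, h4] at h1
      exact h1
    refine ⟨h2, ?_⟩
    show Pool.Agent.W612.RS.tH (σ : M →+* M) one_ne_zero (ha σ) (hb σ) (.some x y h) = _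
    rw [Pool.Agent.W612.RS.tH_some, Affine.Point.some.injEq]
    exact ⟨by simp, by simp⟩
  have hmul : ∀ σ τ x, V (σ * τ) x = V σ (V τ x) := by
    intro σ τ P
    match P with
    | 0 => rw [map_zero, map_zero, map_zero]
    | .some x y h =>
      obtain ⟨h1, e1⟩ := hV (σ * τ) x y h
      obtain ⟨h2, e2⟩ := hV τ x y h
      obtain ⟨h3, e3⟩ := hV σ (τ x) (τ y) h2
      rw [e1, e2, e3]
      rfl
  have hone : ∀ x, V 1 x = x := by
    intro P
    match P with
    | 0 => rw [map_zero]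
    | .some x y h =>
      obtain ⟨h1, e1⟩ := hV 1 x y h
      rw [e1]
      rfl
  have hV2 : ∀ σ x, V σ (V σ x) = x := by
    intro σ x
    rw [← hmul, hexp, hone]
  have hcm : ∀ σ τ : M ≃ₐ[F] M, σ * τ = τ * σ := by
    intro σ τ
    have h1 := hexp (σ * τ)
    have h2 : ∀ g : M ≃ₐ[F] M, g⁻¹ = g := fun g => inv_eq_of_mul_eq_one_left (hexp g)
    calc σ * τ = (σ * τ)⁻¹ := (h2 _).symm
      _ = τ⁻¹ * σ⁻¹ := mul_inv_rev _ _
      _ = τ * σ := by rw [h2, h2]
  have hcomm : ∀ σ τ x, V σ (V τ x) = V τ (V σ x) := by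
    intro σ τ x
    rw [← hmul, ← hmul, hcm]
  -- characters
  have hfd : FiniteDimensional F M := inferInstance
  have h1 := rank_eig V hV2 hcomm
  -- for every character an index
  have hch : ∀ χ : (M ≃ₐ[F] M) → ℤˣ, (∀ σ τ, χ (σ * τ) = χ σ * χ τ) →
      ∃ (i : Fin m) (s : M), s ≠ 0 ∧ s ^ 2 = algebraMap F M (d i) ∧
        ∀ σ : M ≃ₐ[F] M, σ s = ((χ σ : ℤ) : M) * s := by
    intro χ hχ
    obtain ⟨s, hs0, hs⟩ := ex_s χ hχ
    obtain ⟨c, hc⟩ := sq_fix χ s hs
    obtain ⟨i, t, hit⟩ := hcl s c hs0 hc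
    have ht : t ≠ 0 := by
      rintro rfl
      rw [hit] at hc
      simp at hc
      exact hs0 hc
    have ht' : algebraMap F M t ≠ 0 := by
      rw [Ne, map_eq_zero]
      exact ht
    refine ⟨i, s / algebraMap F M t, div_ne_zero hs0 ht', ?_, ?_⟩
    · rw [div_pow, hc, hit, map_mul, map_pow]
      field_simp
    · intro σ
      rw [map_div₀, hs, σ.commutes, mul_div_assoc]
  have hne : Nonempty (Fin m) := by
    obtain ⟨i, _⟩ := hcl 1 1 one_ne_zero (by simp)
    exact ⟨i⟩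
  choose! ix sx hsx0 hsx2 hsx using hch
  -- the characters
  let S : Finset ((M ≃ₐ[F] M) → ℤˣ) := univ.filter (fun χ => ∀ σ τ, χ (σ * τ) = χ σ * χ τ)
  have h2 : ∑ χ : (M ≃ₐ[F] M) → ℤˣ, Module.rank ℤ (eig V univ χ) =
      ∑ χ ∈ S, Module.rank ℤ (eig V univ χ) := by
    symm
    apply Finset.sum_subset (Finset.subset_univ _)
    intro χ _ hχ
    refine rank_nochar V hmul χ (fun h => hχ ?_)
    exact Finset.mem_filter.2 ⟨Finset.mem_univ _, h⟩
  have h3 : ∀ χ ∈ S, Module.rank ℤ (eig V univ χ) ≤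
      ((Module.finrank ℤ (ShK (A * d (ix χ) ^ 2) (B * d (ix χ) ^ 3)).toAffine.Point : ℕ) : Cardinal) := by
    intro χ hχ
    have hχ' := (Finset.mem_filter.1 hχ).2
    have := hf2 (ix χ)
    rw [Module.finrank_eq_rank]
    have hs0 := hsx0 χ hχ'
    have hs2 := hsx2 χ hχ'
    have hs := hsx χ hχ'
    have hta : algebraMap F M A = algebraMap F M (A * d (ix χ) ^ 2) * ((sx χ)⁻¹) ^ 4 := by
      rw [map_mul, map_pow, ← hs2]
      field_simp
    have htb : algebraMap F M B = algebraMap F M (B * d (ix χ) ^ 3) * ((sx χ)⁻¹) ^ 6 := by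
      rw [map_mul, map_pow, ← hs2]
      field_simp
    refine (Submodule.rank_mono (t := LinearMap.range (Pool.Agent.W612.RS.tH (algebraMap F M)
      (inv_ne_zero hs0) hta htb).toIntLinearMap) ?_).trans (rank_range_le _)
    intro P hP
    match P with
    | 0 => exact ⟨0, map_zero _⟩
    | .some X Y h =>
      have h4 : ∀ σ : M ≃ₐ[F] M, σ X = X ∧ σ Y = ((χ σ : ℤ) : M) * Y := by
        intro σ
        have h5 := hP σ (Finset.mem_univ _)
        obtain ⟨h6, e6⟩ := hV σ X Y h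
        rw [e6] at h5
        rcases Int.units_eq_one_or (χ σ) with h7 | h7
        · rw [h7, Units.val_one, one_smul, Affine.Point.some.injEq] at h5
          rw [h7]
          exact ⟨h5.1, by simpa using h5.2⟩
        · rw [h7, Units.val_neg, Units.val_one, neg_smul, one_smul, Affine.Point.neg_some,
            Affine.Point.some.injEq] at h5
          rw [h7]
          refine ⟨h5.1, ?_⟩
          rw [h5.2]
          simp [Affine.negY, ShK]
      obtain ⟨x, hx⟩ : X ∈ Set.range (algebraMap F M) := by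
        rw [IsGalois.mem_range_algebraMap_iff_fixed]
        exact fun σ => (h4 σ).1
      obtain ⟨y, hy⟩ : Y * sx χ ∈ Set.range (algebraMap F M) := by
        rw [IsGalois.mem_range_algebraMap_iff_fixed]
        intro σ
        rw [map_mul, (h4 σ).2, hs σ]
        have h5 : (((χ σ : ℤ) : M)) * (((χ σ : ℤ) : M)) = 1 := by
          rcases Int.units_eq_one_or (χ σ) with h | h <;> rw [h] <;> simp
        calc ((χ σ : ℤ) : M) * Y * (((χ σ : ℤ) : M) * sx χ)
            = (((χ σ : ℤ) : M)) * (((χ σ : ℤ) : M)) * (Y * sx χ) := by ring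
          _ = Y * sx χ := by rw [h5, one_mul]
      refine Pool.Agent.W612.RS.mem_range (algebraMap F M) (inv_ne_zero hs0) hta htb X Y h
        (d (ix χ) * x) (d (ix χ) * y) ?_ ?_
      · rw [map_mul, ← hs2, hx]
        field_simp
      · rw [map_mul, ← hs2, hy]
        field_simp
  have h4 : Set.InjOn ix S := by
    intro χ hχ χ' hχ' he
    have k1 := (Finset.mem_filter.1 hχ).2
    have k2 := (Finset.mem_filter.1 hχ').2
    have e1 := hsx2 χ k1
    have e2 := hsx2 χ' k2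
    rw [he, ← e2] at e1
    have e3 := sq_eq_sq_iff_eq_or_eq_neg.1 e1
    funext σ
    have e4 := hsx χ k1 σ
    have e5 := hsx χ' k2 σ
    have e6 : ((χ σ : ℤ) : M) * sx χ' = ((χ' σ : ℤ) : M) * sx χ' := by
      rcases e3 with e3 | e3
      · rw [← e3, ← e4, e3, e5]
      · rw [e3, map_neg] at e4
        rw [← e5]
        linear_combination e4
    have e7 : ((χ σ : ℤ) : M) = ((χ' σ : ℤ) : M) := mul_right_cancel₀ (hsx0 χ' k2) e6
    have e8 : (χ σ : ℤ) = (χ' σ : ℤ) := by exact_mod_cast e7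
    exact Units.ext e8
  have h5 : ((Module.finrank ℤ (ShK (algebraMap F M A) (algebraMap F M B)).toAffine.Point : ℕ) :
      Cardinal) ≤
      ((∑ χ ∈ S, Module.finrank ℤ (ShK (A * d (ix χ) ^ 2) (B * d (ix χ) ^ 3)).toAffine.Point : ℕ) :
        Cardinal) := by
    rw [Module.finrank_eq_rank]
    refine h1.trans ?_
    rw [h2, Nat.cast_sum]
    exact Finset.sum_le_sum h3
  have h6 := Nat.cast_le.1 h5
  refine h6.trans ?_
  rw [← Finset.sum_image (s := S) (g := ix)
    (f := fun i => Module.finrank ℤ (ShK (A * d i ^ 2) (B * d i ^ 3)).toAffine.Point) h4]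
  exact Finset.sum_le_sum_of_subset (Finset.subset_univ _)

/-- **MQR** -/
theorem mqr : S_MQR := mqr'

end Pool.Agent.Q121.ESG
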