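import Pool.Agent.Q161.ESG.Stm6

/-!
Project ESG (helper161), job MSK: Maschke's theorem relative to a subgroup of odd index.
-/

set_option autoImplicit false

namespace Pool.Agent.Q121.ESG

open Pool.Agent.Q161.ESM Pool.Agent.Q161.ESG

/-- **MSK** -/
theorem msk : S_MSK := by
  intro G V _ _ _ _ h2 N hodd hsemi W hW
  classical
  obtain ⟨W', hW', hc⟩ := hsemi W (fun g v hv => hW g v hv)
  have hW'' : ∀ n ∈ N, ∀ v ∈ W', n • v ∈ W' := fun n hn v hv => hW' ⟨n, hn⟩ v hv
  have hdec : ∀ v : V, ∃ w ∈ W, v - w ∈ W' := by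
    intro v
    have hv : v ∈ W ⊔ W' := by
      rw [hc.sup_eq_top]
      trivial
    obtain ⟨w, hw, w', hw', rfl⟩ := AddSubgroup.mem_sup.1 hv
    exact ⟨w, hw, by simpa using hw'⟩
  have hun : ∀ v : V, ∀ w ∈ W, ∀ u ∈ W, v - w ∈ W' → v - u ∈ W' → w = u := by
    intro v w hw u hu h3 h4
    have h5 : w - u ∈ W ⊓ W' := by
      refine ⟨W.sub_mem hw hu, ?_⟩
      have : w - u = (v - u) - (v - w) := by abel
      rw [this]
      exact W'.sub_mem h4 h3
    rw [hc.inf_eq_bot] at h5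
    exact sub_eq_zero.1 (AddSubgroup.mem_bot.1 h5)
  choose π hπ hπ' using hdec
  have padd : ∀ v u, π (v + u) = π v + π u := by
    intro v u
    refine hun (v + u) _ (hπ _) _ (W.add_mem (hπ _) (hπ _)) (hπ' _) ?_
    have : v + u - (π v + π u) = (v - π v) + (u - π u) := by abel
    rw [this]
    exact W'.add_mem (hπ' _) (hπ' _)
  have psm : ∀ n ∈ N, ∀ v, π (n • v) = n • π v := by
    intro n hn v
    refine hun (n • v) _ (hπ _) _ (hW n _ (hπ _)) (hπ' _) ?_
    rw [← smul_sub]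
    exact hW'' n hn _ (hπ' _)
  have pid : ∀ w ∈ W, π w = w := by
    intro w hw
    exact hun w _ (hπ _) _ hw (hπ' _) (by simp)
  -- the average
  let F : G → V → V := fun g v => g • π (g⁻¹ • v)
  have hF : ∀ g : G, ∀ n ∈ N, ∀ v, F (g * n) v = F g v := by
    intro g n hn v
    show (g * n) • π ((g * n)⁻¹ • v) = g • π (g⁻¹ • v)
    rw [mul_inv_rev, mul_smul, mul_smul, psm _ (N.inv_mem hn), smul_inv_smul]
  let Q : G ⧸ N → V → V := fun q v => F q.out v
  have hQ : ∀ (g : G) (v : V), Q (g : G ⧸ N) v = F g v := by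
    intro g v
    obtain ⟨n, hn⟩ := QuotientGroup.mk_out_eq_mul N g
    show F (Quotient.out (g : G ⧸ N)) v = F g v
    rw [hn]
    exact hF g n n.2 v
  have hQh : ∀ (h : G) (q : G ⧸ N) (v : V), Q q (h • v) = h • Q (h⁻¹ • q) v := by
    intro h q v
    obtain ⟨g, rfl⟩ := QuotientGroup.mk_surjective q
    have h3 : h⁻¹ • (g : G ⧸ N) = ((h⁻¹ * g : G) : G ⧸ N) := rfl
    rw [h3, hQ, hQ]
    show g • π (g⁻¹ • h • v) = h • (h⁻¹ * g) • π ((h⁻¹ * g)⁻¹ • v)
    rw [mul_inv_rev, inv_inv, mul_smul, mul_smul, smul_inv_smul]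
  have hfin : Finite (G ⧸ N) := inferInstance
  have := Fintype.ofFinite (G ⧸ N)
  let P : V →+ V :=
    { toFun := fun v => ∑ q : G ⧸ N, Q q v
      map_zero' := by
        have h0 : π 0 = 0 := pid 0 W.zero_mem
        refine Finset.sum_eq_zero (fun q _ => ?_)
        show q.out • π (q.out⁻¹ • (0 : V)) = 0
        rw [smul_zero, h0, smul_zero]
      map_add' := by
        intro v u
        rw [← Finset.sum_add_distrib]
        refine Finset.sum_congr rfl (fun q _ => ?_)
        show q.out • π (q.out⁻¹ • (v + u)) = q.out • π (q.out⁻¹ • v) + q.out • π (q.out⁻¹ • u)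
        rw [smul_add, padd, smul_add] }
  have hPW : ∀ v, P v ∈ W := by
    intro v
    refine W.sum_mem (fun q _ => ?_)
    exact hW _ _ (hπ _)
  have hPid : ∀ w ∈ W, P w = w := by
    intro w hw
    have h3 : P w = ∑ q : G ⧸ N, w := by
      refine Finset.sum_congr rfl (fun q _ => ?_)
      show q.out • π (q.out⁻¹ • w) = w
      rw [pid _ (hW _ _ hw), smul_inv_smul]
    rw [h3, Finset.sum_const, Finset.card_univ]
    have h4 : Fintype.card (G ⧸ N) = N.index := by
      rw [Subgroup.index, Nat.card_eq_fintype_card]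
    rw [h4]
    obtain ⟨k, hk⟩ := hodd
    rw [hk, add_smul, mul_comm, mul_smul, two_smul, h2, smul_zero, zero_add, one_smul]
  have hPg : ∀ (g : G) (v : V), P (g • v) = g • P v := by
    intro g v
    show ∑ q : G ⧸ N, Q q (g • v) = g • ∑ q : G ⧸ N, Q q v
    rw [Finset.smul_sum]
    refine Fintype.sum_equiv (MulAction.toPerm g⁻¹) _ _ (fun q => ?_)
    exact hQh g q v
  refine ⟨P.ker, ?_, ?_⟩
  · intro g v hv
    rw [AddMonoidHom.mem_ker] at hv ⊢
    rw [hPg, hv, smul_zero]
  · refine isCompl_iff.2 ⟨?_, ?_⟩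
    · rw [disjoint_iff]
      rw [eq_bot_iff]
      rintro v ⟨h3, h4⟩
      have h5 := hPid v h3
      have h6 : P v = 0 := h4
      rw [AddSubgroup.mem_bot, ← h5, h6]
    · rw [codisjoint_iff, eq_top_iff]
      intro v _
      have h3 : v = P v + (v - P v) := by abel
      rw [h3]
      refine AddSubgroup.add_mem_sup (hPW v) ?_
      rw [AddMonoidHom.mem_ker, map_sub, hPid _ (hPW v), sub_self]

end Pool.Agent.Q121.ESG
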