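import Pool.Agent.Q161.ESG.Stm6

/-!
Project ESG (helper161), job SEMF: semisimplicity over the Galois fields of odd degree.
-/

set_option autoImplicit false

namespace Pool.Agent.Q121.ESG

open Pool.Agent.Q161.ESM Pool.Agent.Q161.ESG Finset

/-! ### modules -/

section mods

variable {G V : Type} [Group G] [AddCommGroup V] [DistribMulAction G V]

/-- the action on a stable subgroup -/
abbrev actOn (U : AddSubgroup V) (hU : GSt G U) : DistribMulAction G U where
  smul g v := ⟨g • v.1, hU g v.1 v.2⟩
  one_smul v := Subtype.ext (one_smul G v.1)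
  mul_smul g h v := Subtype.ext (mul_smul g h v.1)
  smul_zero g := Subtype.ext (smul_zero g)
  smul_add g v w := Subtype.ext (smul_add g v.1 w.1)

theorem semi_sub (U : AddSubgroup V) (hU : GSt G U) (h : letI := actOn U hU; Semi G U)
    (W : AddSubgroup V) (hWU : W ≤ U) (hW : GSt G W) :
    ∃ W' : AddSubgroup V, W' ≤ U ∧ GSt G W' ∧ W ⊓ W' = ⊥ ∧ W ⊔ W' = U := by
  let _ := actOn U hU
  obtain ⟨W1, hW1, hc⟩ := h (W.addSubgroupOf U) (fun g v hv => hW g v.1 hv)
  refine ⟨W1.map U.subtype, ?_, ?_, ?_, ?_⟩
  · rintro _ ⟨v, _, rfl⟩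
    exact v.2
  · rintro g _ ⟨v, hv, rfl⟩
    exact ⟨g • v, hW1 g v hv, rfl⟩
  · rw [eq_bot_iff]
    rintro x ⟨hx, ⟨v, hv, rfl⟩⟩
    have h3 : v ∈ W.addSubgroupOf U ⊓ W1 := ⟨hx, hv⟩
    rw [hc.inf_eq_bot, AddSubgroup.mem_bot] at h3
    rw [h3]
    exact AddSubgroup.zero_mem _
  · apply le_antisymm
    · refine sup_le hWU ?_
      rintro _ ⟨v, _, rfl⟩
      exact v.2
    · intro x hx
      have h3 : (⟨x, hx⟩ : U) ∈ W.addSubgroupOf U ⊔ W1 := by
        rw [hc.sup_eq_top]
        trivial
      obtain ⟨a, ha, b, hb, hab⟩ := AddSubgroup.mem_sup.1 h3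
      have h4 : a.1 + b.1 = x := congrArg Subtype.val hab
      rw [← h4]
      exact AddSubgroup.add_mem_sup ha ⟨b, hb, rfl⟩

theorem z3 : ∀ x y z : ZMod 2, x + y + z = 0 → ¬ (x = 0 ∧ y = 0 ∧ z = 0) →
    (x = 0 ∧ y = 1 ∧ z = 1) ∨ (x = 1 ∧ y = 0 ∧ z = 1) ∨ (x = 1 ∧ y = 1 ∧ z = 0) := by
  decide

theorem simple3 {J : Type} (act : G → J → J) (cd : V →+ (J → ZMod 2))
    (hinj : Function.Injective cd) (heqv : ∀ g v j, cd (g • v) (act g j) = cd v j)
    (T : Finset J) (hT : T.card = 3) (htr : ∀ i ∈ T, ∀ j ∈ T, ∃ g, act g i = j)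
    (U : AddSubgroup V) (hU0 : ∀ v ∈ U, ∀ j, j ∉ T → cd v j = 0)
    (hUs : ∀ v ∈ U, ∑ j ∈ T, cd v j = 0) (W : AddSubgroup V) (hWU : W ≤ U) (hW : GSt G W) :
    W = ⊥ ∨ W = U := by
  classical
  have hz : ∀ v ∈ U, v ≠ 0 → ∃ i ∈ T, cd v i = 0 ∧ ∀ j ∈ T, j ≠ i → cd v j = 1 := by
    intro v hv hv0
    have hne : ∃ j ∈ T, cd v j ≠ 0 := by
      by_contra hcon
      push Not at hcon
      apply hv0
      apply hinj
      rw [map_zero]
      funext j
      by_cases hj : j ∈ T
      · exact hcon j hj
      · exact hU0 v hv j hj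
    have hs := hUs v hv
    obtain ⟨a, b, c, hab, hac, hbc, rfl⟩ := Finset.card_eq_three.1 hT
    rw [Finset.sum_insert (by simp [hab, hac]), Finset.sum_pair hbc, ← add_assoc] at hs
    have h3 := z3 _ _ _ hs (by
      rintro ⟨h4, h5, h6⟩
      obtain ⟨j, hj, hj'⟩ := hne
      simp only [Finset.mem_insert, Finset.mem_singleton] at hj
      rcases hj with rfl | rfl | rfl
      · exact hj' h4
      · exact hj' h5
      · exact hj' h6)
    rcases h3 with ⟨h4, h5, h6⟩ | ⟨h4, h5, h6⟩ | ⟨h4, h5, h6⟩
    · refine ⟨a, by simp, h4, ?_⟩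
      intro j hj hja
      simp only [Finset.mem_insert, Finset.mem_singleton] at hj
      rcases hj with rfl | rfl | rfl
      · exact absurd rfl hja
      · exact h5
      · exact h6
    · refine ⟨b, by simp, h5, ?_⟩
      intro j hj hja
      simp only [Finset.mem_insert, Finset.mem_singleton] at hj
      rcases hj with rfl | rfl | rfl
      · exact h4
      · exact absurd rfl hja
      · exact h6
    · refine ⟨c, by simp, h6, ?_⟩
      intro j hj hja
      simp only [Finset.mem_insert, Finset.mem_singleton] at hj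
      rcases hj with rfl | rfl | rfl
      · exact h4
      · exact h5
      · exact absurd rfl hja
  by_cases hb : W = ⊥
  · exact Or.inl hb
  right
  apply le_antisymm hWU
  intro u hu
  by_cases hu0 : u = 0
  · rw [hu0]
    exact W.zero_mem
  obtain ⟨v, hv, hv0⟩ := (AddSubgroup.bot_or_exists_ne_zero W).resolve_left hb
  obtain ⟨i, hi, hi0, _⟩ := hz v (hWU hv) hv0
  obtain ⟨j, hj, hj0, hj1⟩ := hz u hu hu0
  obtain ⟨g, hg⟩ := htr i hi j hj
  have hgv : g • v ∈ W := hW g v hv
  have hgv0 : g • v ≠ 0 := by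
    intro h
    apply hv0
    rw [← inv_smul_smul g v, h, smul_zero]
  obtain ⟨k, hk, hk0, hk1⟩ := hz _ (hWU hgv) hgv0
  have h1 : cd (g • v) j = 0 := by
    rw [← hg, heqv, hi0]
  have h2 : k = j := by
    by_contra hkj
    have h3 := hk1 j hj (Ne.symm hkj)
    rw [h1] at h3
    exact absurd h3 (by decide)
  subst h2
  have h3 : g • v = u := by
    apply hinj
    funext l
    by_cases hl : l ∈ T
    · by_cases hlk : l = k
      · rw [hlk, hk0, hj0]
      · rw [hk1 l hl hlk, hj1 l hl hlk]
    · rw [hU0 _ (hWU hgv) l hl, hU0 _ hu l hl]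
  rw [← h3]
  exact hgv

end mods

/-! ### fields -/

theorem exists_aut {K : Type} [Field K] [NumberField K] [IsGalois ℚ K] {M : Type} [Field M]
    [NumberField M] (σ τ : M →+* K) : ∃ g : K ≃ₐ[ℚ] K, ∀ x, g (σ x) = τ x := by
  let σ' : M →ₐ[ℚ] K := σ.toRatAlgHom
  let τ' : M →ₐ[ℚ] K := τ.toRatAlgHom
  let e1 : M ≃ₐ[ℚ] σ'.fieldRange := AlgEquiv.ofInjectiveField σ'
  let e2 : M ≃ₐ[ℚ] τ'.fieldRange := AlgEquiv.ofInjectiveField τ'
  refine ⟨(e1.symm.trans e2).liftNormal K, fun x => ?_⟩
  have h := AlgEquiv.liftNormal_commutes (e1.symm.trans e2) K (e1 x)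
  rw [AlgEquiv.trans_apply, AlgEquiv.symm_apply_apply] at h
  exact h

theorem card_block {F L K : Type} [Field F] [NumberField F] [Field L] [NumberField L] [Algebra F L]
    [Field K] [NumberField K] [IsGalois ℚ K] (h0 : Nonempty (L →+* K)) (τ : F →+* K) :
    Nat.card {ι : L →+* K // ι.comp (algebraMap F L) = τ} = Module.finrank F L := by
  let _ : Algebra F K := τ.toAlgebra
  have hs : ∀ x : L, ((minpoly F x).map (algebraMap F K)).Splits := by
    intro x
    obtain ⟨ι0⟩ := h0
    have h1 : minpoly ℚ (ι0.toRatAlgHom x) = minpoly ℚ x :=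
      minpoly.algHom_eq _ (RingHom.injective _) x
    have h2 : ((minpoly ℚ x).map (algebraMap ℚ K)).Splits := by
      rw [← h1]
      exact Normal.splits inferInstance _
    exact IsIntegral.minpoly_splits_tower_top (Algebra.IsIntegral.isIntegral x) h2
  rw [← AlgHom.natCard_of_splits F L K hs]
  refine Nat.card_congr ⟨fun ι => { ι.1 with commutes' := fun x => ?_ },
    fun f => ⟨f.toRingHom, ?_⟩, ?_, ?_⟩
  · exact congrArg (fun k : F →+* K => k x) ι.2
  · ext x
    exact f.commutes x
  · intro ι
    rfl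
  · intro f
    rfl

theorem range_eq {F K : Type} [Field F] [NumberField F] [IsGalois ℚ F] [Field K] [NumberField K]
    [IsGalois ℚ K] (τ τ0 : F →+* K) (x : F) : ∃ y, τ x = τ0 y := by
  let τ0' : F →ₐ[ℚ] K := τ0.toRatAlgHom
  let e : F ≃ₐ[ℚ] τ0'.fieldRange := AlgEquiv.ofInjectiveField τ0'
  let f : τ0'.fieldRange →ₐ[ℚ] K := (τ.toRatAlgHom).comp (e.symm : τ0'.fieldRange →ₐ[ℚ] F)
  have h1 : f.fieldRange = τ0'.fieldRange :=
    @AlgHom.fieldRange_of_normal ℚ K _ _ _ τ0'.fieldRange (Normal.of_algEquiv e) f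
  have h2 : τ x ∈ f.fieldRange := ⟨e x, by
    show τ (e.symm (e x)) = τ x
    rw [e.symm_apply_apply]⟩
  rw [h1] at h2
  obtain ⟨y, hy⟩ := h2
  exact ⟨y, hy.symm⟩

/-- **SEMF** -/
theorem semf (hS : S_SUMG) (hM : S_MSK) : S_SEMF := by
  intro C _ F L _ _ _ _ _ hG hodd h3 K _ _ _ hne V _ _ _ cd hV
  classical
  have h2 : ∀ v : V, v + v = 0 := by
    intro v
    apply hV.inj
    rw [map_add, map_zero]
    funext c ι
    exact CharTwo.add_self_eq_zero _
  have hres : ∀ (p : (c : C) → (F c →+* K) → Prop) (v : V), ∃ u : V, ∀ c ι,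
      cd u c ι = if p c (ι.comp (algebraMap (F c) (L c))) then cd v c ι else 0 := by
    intro p v
    have key := (hV.im (fun c ι => if p c (ι.comp (algebraMap (F c) (L c))) then cd v c ι else 0)).2 (by
      intro c τ
      by_cases hp : p c τ
      · rw [← (hV.im (cd v)).1 ⟨v, rfl⟩ c τ]
        refine Finset.sum_congr rfl (fun ι hι => ?_)
        rw [Finset.mem_filter] at hι
        rw [hι.2, if_pos hp]
      · refine Finset.sum_eq_zero (fun ι hι => ?_)
        rw [Finset.mem_filter] at hι
        rw [hι.2, if_neg hp])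
    obtain ⟨u, hu⟩ := key
    exact ⟨u, fun c ι => by rw [hu]⟩
  let U : C → AddSubgroup V := fun c =>
    { carrier := {v | ∀ c', c' ≠ c → ∀ ι, cd v c' ι = 0}
      zero_mem' := by
        intro c' _ ι
        rw [map_zero]
        rfl
      add_mem' := by
        intro a b ha hb c' hc' ι
        rw [map_add]
        show cd a c' ι + cd b c' ι = 0
        rw [ha c' hc' ι, hb c' hc' ι, add_zero]
      neg_mem' := by
        intro a ha c' hc' ι
        rw [map_neg]
        show - cd a c' ι = 0
        rw [ha c' hc' ι, neg_zero] }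
  have hcd : ∀ (g : K ≃ₐ[ℚ] K) (v : V) c ι, cd (g • v) c ι = cd v c (cp g⁻¹ ι) := by
    intro g v c ι
    have h := hV.eqv g v c (cp g⁻¹ ι)
    have h4 : cp g (cp g⁻¹ ι) = ι := by
      ext x
      show g (g⁻¹ (ι x)) = ι x
      exact AlgEquiv.apply_symm_apply g _
    rw [h4] at h
    exact h
  have hU : ∀ c, GSt (K ≃ₐ[ℚ] K) (U c) := fun c g v hv c' hc' ι => by
    rw [hcd]
    exact hv c' hc' _
  refine hS _ V C U h2 hU ?_ ?_
  · intro c
    refine semi_sub (U c) (hU c) ?_
    let _ := actOn (U c) (hU c)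
    obtain ⟨ι0⟩ := hne c
    let τ0 := ι0.comp (algebraMap (F c) (L c))
    let N := (τ0.toRatAlgHom.fieldRange).fixingSubgroup
    have hNx : ∀ g ∈ N, ∀ (τ : F c →+* K) (x : F c), g (τ x) = τ x := by
      intro g hg τ x
      have := hG c
      obtain ⟨y, hy⟩ := range_eq τ τ0 x
      rw [hy]
      exact hg ⟨τ0 y, ⟨y, rfl⟩⟩
    have hNc : ∀ g ∈ N, ∀ ι : L c →+* K, (cp g ι).comp (algebraMap (F c) (L c)) =
        ι.comp (algebraMap (F c) (L c)) := by
      intro g hg ι
      ext x
      exact hNx g hg (ι.comp (algebraMap (F c) (L c))) x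
    refine hM (K ≃ₐ[ℚ] K) (U c) (fun v => Subtype.ext (h2 v.1)) N ?_ ?_
    · have h5 : N.index = Module.finrank ℚ (F c) := by
        rw [← IntermediateField.finrank_eq_fixingSubgroup_index]
        exact ((AlgEquiv.ofInjectiveField τ0.toRatAlgHom).toLinearEquiv.finrank_eq).symm
      rw [h5]
      exact hodd c
    · let T : (F c →+* K) → AddSubgroup (U c) := fun τ =>
        { carrier := {v | ∀ ι : L c →+* K, ι.comp (algebraMap (F c) (L c)) ≠ τ → cd v.1 c ι = 0}
          zero_mem' := by
            intro ι _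
            show cd 0 c ι = 0
            rw [map_zero]
            rfl
          add_mem' := by
            intro a b ha hb ι hι
            show cd (a.1 + b.1) c ι = 0
            rw [map_add]
            show cd a.1 c ι + cd b.1 c ι = 0
            rw [ha ι hι, hb ι hι, add_zero]
          neg_mem' := by
            intro a ha ι hι
            show cd (- a.1) c ι = 0
            rw [map_neg]
            show - cd a.1 c ι = 0
            rw [ha ι hι, neg_zero] }
      let cd' : U c →+ ((L c →+* K) → ZMod 2) :=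
        { toFun := fun v => cd v.1 c
          map_zero' := by
            show cd 0 c = 0
            rw [map_zero]
            rfl
          map_add' := by
            intro a b
            show cd (a.1 + b.1) c = cd a.1 c + cd b.1 c
            rw [map_add]
            rfl }
      have hinj : Function.Injective cd' := by
        intro v w hvw
        apply Subtype.ext
        apply hV.inj
        funext c' ι
        by_cases hc : c' = c
        · subst hc
          exact congrFun hvw ι
        · rw [v.2 c' hc ι, w.2 c' hc ι]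
      refine hS N (U c) (F c →+* K) T (fun v => Subtype.ext (h2 v.1)) ?_ ?_ ?_
      · intro τ g v hv ι hι
        show cd (g.1 • v.1) c ι = 0
        rw [hcd]
        refine hv _ ?_
        rw [hNc _ (N.inv_mem g.2)]
        exact hι
      · intro τ W hWT hW
        have h6 : W = ⊥ ∨ W = T τ := by
          refine simple3 (G := N) (fun g ι => cp g.1 ι) cd' hinj ?_
            (univ.filter (fun ι : L c →+* K => ι.comp (algebraMap (F c) (L c)) = τ)) ?_ ?_ (T τ) ?_ ?_
            W hWT hW
          · intro g v ι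
            exact hV.eqv g.1 v.1 c ι
          · rw [← h3 c, ← card_block (hne c) τ, Nat.card_eq_fintype_card, Fintype.card_subtype]
          · intro i hi j hj
            rw [Finset.mem_filter] at hi hj
            obtain ⟨g, hg⟩ := exists_aut i j
            refine ⟨⟨g, ?_⟩, ?_⟩
            · rintro ⟨_, ⟨y, rfl⟩⟩
              have := hG c
              obtain ⟨z, hz⟩ := range_eq τ0 τ y
              show g (τ0 y) = τ0 y
              rw [hz, ← hi.2]
              show g (i (algebraMap (F c) (L c) z)) = i (algebraMap (F c) (L c) z)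
              rw [hg]
              have h7 : (j.comp (algebraMap (F c) (L c))) z = (i.comp (algebraMap (F c) (L c))) z := by
                rw [hi.2, hj.2]
              exact h7
            · ext x
              exact hg x
          · intro v hv ι hι
            refine hv ι (fun h => hι ?_)
            rw [Finset.mem_filter]
            exact ⟨Finset.mem_univ _, h⟩
          · intro v hv
            exact (hV.im (cd v.1)).1 ⟨v.1, rfl⟩ c τ
        rcases h6 with h6 | h6
        · exact ⟨T τ, le_rfl, by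
            intro g v hv ι hι
            show cd (g.1 • v.1) c ι = 0
            rw [hcd]
            refine hv _ ?_
            rw [hNc _ (N.inv_mem g.2)]
            exact hι, by rw [h6]; simp, by rw [h6]; simp⟩
        · refine ⟨⊥, bot_le, ?_, by simp, by rw [h6]; simp⟩
          intro g v hv
          rw [AddSubgroup.mem_bot] at hv
          rw [hv, smul_zero]
          exact AddSubgroup.zero_mem _
      · rw [eq_top_iff]
        intro v _
        choose u hu using fun τ : F c →+* K =>
          hres (Function.update (fun _ _ => True) c (fun τ' => τ' = τ)) v.1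
        have hu1 : ∀ τ, u τ ∈ U c := by
          intro τ c' hc' ι
          rw [hu, v.2 c' hc' ι, ite_self]
        have hu2 : ∀ τ (ι : L c →+* K), cd (u τ) c ι =
            if ι.comp (algebraMap (F c) (L c)) = τ then cd v.1 c ι else 0 := by
          intro τ ι
          rw [hu, Function.update_self]
        have h6 : v = ∑ τ : F c →+* K, (⟨u τ, hu1 τ⟩ : U c) := by
          apply hinj
          rw [map_sum]
          funext ι
          rw [Finset.sum_apply]
          show cd v.1 c ι = ∑ τ : F c →+* K, cd (u τ) c ι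
          rw [Finset.sum_congr rfl (fun τ _ => hu2 τ ι), Finset.sum_ite_eq]
          simp
        rw [h6]
        refine AddSubgroup.sum_mem _ (fun τ _ => ?_)
        refine (le_iSup T τ) ?_
        intro ι hι
        show cd (u τ) c ι = 0
        rw [hu2, if_neg hι]
  · rw [eq_top_iff]
    intro v _
    choose u hu using fun c : C => hres (fun c' _ => c' = c) v
    have h6 : v = ∑ c : C, u c := by
      apply hV.inj
      rw [map_sum]
      funext c ι
      rw [Finset.sum_apply, Finset.sum_apply, Finset.sum_congr rfl (fun c' _ => hu c' c ι),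
        Finset.sum_ite_eq]
      simp
    rw [h6]
    refine AddSubgroup.sum_mem _ (fun c _ => ?_)
    refine (le_iSup U c) ?_
    intro c' hc' ι
    rw [hu, if_neg hc']

end Pool.Agent.Q121.ESG
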